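import Mathlib
import Pool.Agent.Q4.Hyp.PairMainO

set_option autoImplicit false

/-!
# The Lang–Waldschmidt inequality for `X ^ a Y ^ (-b)`, with a relation between `X` and `Y`

`X` and `Y` run over all pairs of nonzero integers for which `P(X, Y)` (for a fixed `P ∈ ℤ[X, Y]`) is
a value `F(q, p)` of a polynomial `F`, where `p / q` is a convergent, or a nearly optimal
approximation, of an algebraic number of degree `r ≥ 3`. For instance `X Y = F(q, p)`.

The proof: if `X ^ a Y ^ (-b)` is close to `1`, then `X`, `Y` are close to `ρ ^ b`, `ρ ^ a` for a root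
`ρ` of the equation `P(ρ ^ b, ρ ^ a) = F(q, p)`; the subspace theorem shows that `X` and `Y` are
values of polynomials at `(q, p)`; then Davenport's inequality for polynomials and a lower bound for
the values of polynomials at these points.
-/

namespace Pool.Agent.Results.MP_e07dae_nt.PairsAtConvergents

open MvPolynomial

/-- the value `F(q, p)` -/
noncomputable def value (F : MvPolynomial (Fin 2) ℤ) (q : ℕ) (p : ℤ) : ℤ :=
  eval (fun i => if i = 0 then (q : ℤ) else p) F

/-- the value at `(1, ξ)` of the homogeneous part of degree `m` -/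
noncomputable def atInfinity (ξ : ℝ) (m : ℕ) (F : MvPolynomial (Fin 2) ℤ) : ℝ :=
  aeval (fun i : Fin 2 => (if i = 0 then (1 : ℝ) else ξ)) (homogeneousComponent m F)

/-- the change of names of the variables -/
def nm : Fin 2 → Option Unit := fun i => if i = 0 then none else some ()

lemma nm_inj : Function.Injective nm := by
  intro i j h
  fin_cases i <;> fin_cases j <;> simp_all [nm]

lemma value_eq (F : MvPolynomial (Fin 2) ℤ) (q : ℕ) (x : Unit → ℤ) :
    eval (Pool.Agent.Q4.Tube.px q x) (rename nm F) = value F q (x ()) := by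
  unfold value
  rw [eval_rename]
  congr 1
  congr 1
  funext i
  fin_cases i <;> simp [nm, Pool.Agent.Q4.Tube.px]

lemma top_eq (F : MvPolynomial (Fin 2) ℤ) (m : ℕ) (θ : Unit → ℝ) :
    Pool.Agent.Q4.Cov.topv m (rename nm F) θ = atInfinity (θ ()) m F := by
  unfold Pool.Agent.Q4.Cov.topv atInfinity
  have h1 : homogeneousComponent m (rename nm F) = rename nm (homogeneousComponent m F) := by
    have h2 : F = ∑ i ∈ Finset.range (F.totalDegree + 1), homogeneousComponent i F :=
      (sum_homogeneousComponent F).symm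
    conv_lhs => rw [h2]
    rw [map_sum, map_sum]
    by_cases hm : m ∈ Finset.range (F.totalDegree + 1)
    · rw [Finset.sum_eq_single m]
      · rw [homogeneousComponent_of_mem ((homogeneousComponent_isHomogeneous m F).rename_isHomogeneous
          (f := nm)), if_pos rfl]
      · intro i _ hi
        rw [homogeneousComponent_of_mem ((homogeneousComponent_isHomogeneous i F).rename_isHomogeneous
          (f := nm)), if_neg (Ne.symm hi)]
      · intro h
        exact absurd hm h
    · rw [Finset.sum_eq_zero, homogeneousComponent_eq_zero, map_zero]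
      · rw [Finset.mem_range] at hm
        omega
      · intro i hi
        rw [homogeneousComponent_of_mem ((homogeneousComponent_isHomogeneous i F).rename_isHomogeneous
          (f := nm)), if_neg]
        rintro rfl
        exact hm hi
  rw [h1, aeval_rename]
  congr 1
  congr 1
  funext i
  fin_cases i <;> simp [nm]

/-- the value `P(X, Y)` -/
noncomputable def pairValue (P : MvPolynomial (Fin 2) ℤ) (X Y : ℤ) : ℤ :=
  eval (fun i => if i = 0 then X else Y) P

/-- the polynomial `P(T ^ b, T ^ a)` -/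
noncomputable def onCurve (a b : ℕ) (P : MvPolynomial (Fin 2) ℤ) : Polynomial ℤ :=
  aeval (fun i : Fin 2 => (if i = 0 then Polynomial.X ^ b else Polynomial.X ^ a : Polynomial ℤ)) P

/-- Let `a, b ≥ 2` be coprime integers, `P ∈ ℤ[X, Y]`, and let `w > 0` be the degree of
`P(T ^ b, T ^ a)`; suppose that `b i + a k ≤ w` for all monomials `Xⁱ Yᵏ` of `P`. Let `j > 0`, let `ξ`
be a real algebraic number of degree `r ≥ 3`, and let `F ∈ ℤ[U, V]` have degree at most `w j`, with a
homogeneous part of degree `w j` that does not vanish at `(1, ξ)`. Let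
`e < 1 - (2/r)(1 + j(ab - a - b))`. There are `η > 0` and `N` such that for all integers `q ≥ N` and
`p` with `|ξ - p/q| ≤ q ^ (η - 2)` and all nonzero integers `X`, `Y` with `P(X, Y) = F(q, p)` and
`Λ = X ^ a Y ^ (-b) ≠ 1`: `|Λ - 1| |X| |Y| > q ^ e`. -/
theorem result (a b : ℕ) (ha : 2 ≤ a) (hb : 2 ≤ b) (hab : Nat.Coprime a b)
    (P : MvPolynomial (Fin 2) ℤ) (hw : 0 < (onCurve a b P).natDegree)
    (hP : ∀ m ∈ P.support, b * m 0 + a * m 1 ≤ (onCurve a b P).natDegree)
    (ξ : ℝ) (hξ : IsAlgebraic ℚ ξ) (h3 : 3 ≤ (minpoly ℚ ξ).natDegree)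
    (F : MvPolynomial (Fin 2) ℤ) (j : ℕ) (hj : 0 < j)
    (hF : F.totalDegree ≤ (onCurve a b P).natDegree * j)
    (htop : atInfinity ξ ((onCurve a b P).natDegree * j) F ≠ 0) (e : ℝ)
    (he : e < 1 - 2 / ((minpoly ℚ ξ).natDegree : ℝ) * (1 + j * ((a : ℝ) * b - a - b))) :
    ∃ (η : ℝ) (N : ℕ), 0 < η ∧ ∀ q ≥ N, ∀ p : ℤ, |ξ - p / q| ≤ (q : ℝ) ^ (η - 2) → ∀ X Y : ℤ,
      X ≠ 0 → Y ≠ 0 → pairValue P X Y = value F q p → (X : ℝ) ^ a / (Y : ℝ) ^ b ≠ 1 →
      (q : ℝ) ^ e < |(X : ℝ) ^ a / (Y : ℝ) ^ b - 1| * (|(X : ℝ)| * |(Y : ℝ)|) := by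
  classical
  obtain ⟨η, N, hη, h⟩ := Pool.Agent.Q4.Hyp.pair_mainO (fun _ => ξ) hξ h3 (P := P)
    (F := rename nm F) (j := j) ha hb hab (w := (onCurve a b P).natDegree) rfl hP hw
    ((totalDegree_rename_le _ _).trans hF) hj (by rw [top_eq]; exact htop) he
  refine ⟨η, max N 1, hη, fun q hq p hp X Y hX hY hXY hne => ?_⟩
  have hq1 : 1 ≤ q := (le_max_right _ _).trans hq
  have hqp : (0 : ℝ) < q := by exact_mod_cast hq1
  exact h q ((le_max_left _ _).trans hq) (fun _ => p) (by
    have h2 : ξ * q - p = q * (ξ - p / q) := by field_simp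
    have h3' : (q : ℝ) ^ (η - 2) = (q : ℝ) ^ η / q ^ 2 := by
      rw [Real.rpow_sub hqp]
      norm_num
    rw [h3'] at hp
    change (q : ℝ) * |ξ * q - (p : ℝ)| ≤ _
    rw [h2, abs_mul, abs_of_pos hqp]
    calc (q : ℝ) * (q * |ξ - p / q|) ≤ q * (q * ((q : ℝ) ^ η / q ^ 2)) := by gcongr
      _ = (q : ℝ) ^ η := by field_simp) X Y hX hY (by rw [value_eq]; exact hXY) (by
    intro h5
    apply hne
    have h6 : (X : ℝ) ^ a = (Y : ℝ) ^ b := by exact_mod_cast h5
    rw [h6]
    have h7 : (Y : ℝ) ≠ 0 := by exact_mod_cast hY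
    exact div_self (pow_ne_zero _ h7))

end Pool.Agent.Results.MP_e07dae_nt.PairsAtConvergents
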