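import Mathlib
import Pool.Agent.Q4.Hall.PotO

set_option autoImplicit false

/-!
# The inequality of Lang and Waldschmidt at nearly optimal approximations
-/

namespace Pool.Agent.Results.MP_e07dae_nt.PowerProductsAtConvergents

open MvPolynomial

/-- the value `F(q, p)` -/
noncomputable def value (F : MvPolynomial (Fin 2) ℤ) (q : ℕ) (p : ℤ) : ℤ :=
  eval (fun i => if i = 0 then (q : ℤ) else p) F

/-- the value at `(1, ξ)` of the homogeneous part of degree `m` -/
noncomputable def atInfinity (ξ : ℝ) (m : ℕ) (F : MvPolynomial (Fin 2) ℤ) : ℝ :=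
  aeval (fun i : Fin 2 => (if i = 0 then (1 : ℝ) else ξ)) (homogeneousComponent m F)

/-- the change of names of the variables -/
def nm : Fin 2 → Option Unit := fun i => if i = 0 then none else some ()

lemma nm_inj : Function.Injective nm := by
  intro i j h
  fin_cases i <;> fin_cases j <;> simp_all [nm]

lemma value_eq (F : MvPolynomial (Fin 2) ℤ) (q : ℕ) (x : Unit → ℤ) :
    eval (Pool.Agent.Q4.Tube.px q x) (rename nm F) = value F q (x ()) := by
  unfold value
  rw [eval_rename]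
  congr 1
  congr 1
  funext i
  fin_cases i <;> simp [nm, Pool.Agent.Q4.Tube.px]

lemma top_eq (F : MvPolynomial (Fin 2) ℤ) (m : ℕ) (θ : Unit → ℝ) :
    Pool.Agent.Q4.Cov.topv m (rename nm F) θ = atInfinity (θ ()) m F := by
  unfold Pool.Agent.Q4.Cov.topv atInfinity
  have h1 : homogeneousComponent m (rename nm F) = rename nm (homogeneousComponent m F) := by
    have h2 : F = ∑ i ∈ Finset.range (F.totalDegree + 1), homogeneousComponent i F :=
      (sum_homogeneousComponent F).symm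
    conv_lhs => rw [h2]
    rw [map_sum, map_sum]
    by_cases hm : m ∈ Finset.range (F.totalDegree + 1)
    · rw [Finset.sum_eq_single m]
      · rw [homogeneousComponent_of_mem ((homogeneousComponent_isHomogeneous m F).rename_isHomogeneous
          (f := nm)), if_pos rfl]
      · intro i _ hi
        rw [homogeneousComponent_of_mem ((homogeneousComponent_isHomogeneous i F).rename_isHomogeneous
          (f := nm)), if_neg (Ne.symm hi)]
      · intro h
        exact absurd hm h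
    · rw [Finset.sum_eq_zero, homogeneousComponent_eq_zero, map_zero]
      · rw [Finset.mem_range] at hm
        omega
      · intro i hi
        rw [homogeneousComponent_of_mem ((homogeneousComponent_isHomogeneous i F).rename_isHomogeneous
          (f := nm)), if_neg]
        rintro rfl
        exact hm hi
  rw [h1, aeval_rename]
  congr 1
  congr 1
  funext i
  fin_cases i <;> simp [nm]

/-- the degree of the denominator of `y ^ b ∏ Fᵢ(q, p) ^ eᵢ`: the sum of `|eᵢ| Dᵢ` over `eᵢ < 0` -/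
def denDegree {k : ℕ} (D : Fin k → ℕ) (e : Fin k → ℤ) : ℕ := ∑ i, (-e i).toNat * D i

/-- `E + ∑ Dᵢ`, the degree of the product of `y` and all `Fᵢ(q, p)` -/
def baseDegree {k : ℕ} (D : Fin k → ℕ) (E : ℕ) : ℕ := ∑ i, D i + E

/-- the condition on the exponent -/
def Admissible (r : ℕ) {k : ℕ} (D : Fin k → ℕ) (e : Fin k → ℤ) (E : ℕ) (lam : ℝ) : Prop :=
  (denDegree D e : ℝ) - (1 - 2 / (r : ℝ)) * ((denDegree D e + 1 - baseDegree D E : ℕ) : ℝ)
    < lam * baseDegree D E

/-- Let `ξ` be a real algebraic number of degree `r ≥ 3`, `Fᵢ ∈ ℤ[U, V]` of degree at most `Dᵢ`, with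
homogeneous part of degree `Dᵢ` not vanishing at `(1, ξ)`, not all `Dᵢ` zero, and let `eᵢ ≠ 0` be
integers, `b > 0` and `E ≥ 0` integers with `b E + ∑ eᵢ Dᵢ = 0`. Let `m = ∑_{eᵢ < 0} |eᵢ| Dᵢ` and
`T = E + ∑ Dᵢ`, and let `λ T > m - (1 - 2/r) max(m + 1 - T, 0)`. There are `η > 0` and `N` such that
for all integers `q ≥ N` and `p` with `|ξ - p / q| ≤ q ^ (η - 2)` and all integers `y ≠ 0` with
`P = y ^ b ∏ Fᵢ(q, p) ^ eᵢ ≠ 1`: `|P - 1| > (|y| ∏ |Fᵢ(q, p)|) ^ (-λ)`. -/
theorem result (ξ : ℝ) (hξ : IsAlgebraic ℚ ξ) (h3 : 3 ≤ (minpoly ℚ ξ).natDegree)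
    (k : ℕ) (F : Fin k → MvPolynomial (Fin 2) ℤ) (D : Fin k → ℕ) (e : Fin k → ℤ)
    (hF : ∀ i, (F i).totalDegree ≤ D i) (htop : ∀ i, atInfinity ξ (D i) (F i) ≠ 0)
    (he : ∀ i, e i ≠ 0) (hD : ∃ i, D i ≠ 0) (b E : ℕ) (hb : 0 < b)
    (hE : (b : ℤ) * E + ∑ i, e i * D i = 0) (lam : ℝ)
    (hlam : Admissible (minpoly ℚ ξ).natDegree D e E lam) :
    ∃ (η : ℝ) (N : ℕ), 0 < η ∧ ∀ q ≥ N, ∀ p : ℤ, |ξ - p / q| ≤ (q : ℝ) ^ (η - 2) →
      ∀ y : ℤ, y ≠ 0 → (y : ℝ) ^ b * ∏ i, ((value (F i) q p : ℤ) : ℝ) ^ (e i) ≠ 1 →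
      (|(y : ℝ)| * ∏ i, |((value (F i) q p : ℤ) : ℝ)|) ^ (-lam)
        < |(y : ℝ) ^ b * ∏ i, ((value (F i) q p : ℤ) : ℝ) ^ (e i) - 1| := by
  classical
  obtain ⟨η, N, hη, h⟩ := Pool.Agent.Q4.Hall.lw_mainO (fun _ => ξ) hξ h3
    (fun i => rename nm (F i)) D e (fun i => (totalDegree_rename_le _ _).trans (hF i))
    (fun i => by rw [top_eq]; exact htop i) he (by
      obtain ⟨i, hi⟩ := hD
      exact (Nat.one_le_iff_ne_zero.2 hi).trans
        (Finset.single_le_sum (f := D) (fun j _ => Nat.zero_le _) (Finset.mem_univ i))) hb hE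
    (lam := lam) hlam
  refine ⟨η, max N 1, hη, fun q hq p hp y hy h1 => ?_⟩
  have hq1 : 1 ≤ q := (le_max_right _ _).trans hq
  have hqp : (0 : ℝ) < q := by exact_mod_cast hq1
  have hx : (q : ℝ) * |ξ * q - (p : ℝ)| ≤ (q : ℝ) ^ η := by
    have h2 : ξ * q - p = q * (ξ - p / q) := by field_simp
    have h3' : (q : ℝ) ^ (η - 2) = (q : ℝ) ^ η / q ^ 2 := by
      rw [Real.rpow_sub hqp]
      norm_num
    rw [h3'] at hp
    rw [h2, abs_mul, abs_of_pos hqp]
    calc (q : ℝ) * (q * |ξ - p / q|) ≤ q * (q * ((q : ℝ) ^ η / q ^ 2)) := by gcongr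
      _ = (q : ℝ) ^ η := by field_simp
  have h5 := h q ((le_max_left _ _).trans hq) (fun _ => p) hx y hy
  simp only [value_eq] at h5
  exact h5 h1

end Pool.Agent.Results.MP_e07dae_nt.PowerProductsAtConvergents
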