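import Mathlib
import Pool.Agent.Q319.DR.MultP
import Pool.Agent.Results.MP_e07dae_nt.WindowsWithoutExceptions

/-!
# The Lang-Waldschmidt inequality for all factorisations of all integers in windows around the multiples of one real number

Let `M ≥ 1`, `0 ≤ τ < 1/2` and `0 < θ < 1`. There is `c > 0` such that for all real numbers `y` in
`[N ^ (1 - θ), 2 N ^ (1 - θ)]` outside a set of measure at most `N ^ (1 - θ - c)` the following holds for
all `k ≤ N ^ θ` with at most `N ^ (θ - c)` exceptions: for EVERY integer `m` with `|m - k y| ≤ N ^ c`, every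
factorisation `m = a_1 ⋯ a_n` with `n ≤ M` factors and all nonzero integers `b_j` with
`|b_j| ≤ m ^ (τ / n)`, the Lang-Waldschmidt inequality
`|a_1 ^ b_1 ⋯ a_n ^ b_n - 1| ≥ (1/2) max |b_j| / |b_1 ⋯ b_n a_1 ⋯ a_n|` holds.
-/

set_option autoImplicit false

namespace Pool.Agent.Results.MP_e07dae_nt.ProductsAtRealMultiples

open Finset MeasureTheory

/-- `P(a, b) = a_1 ^ b_1 ... a_n ^ b_n`. -/
noncomputable def P {n : ℕ} (a : Fin n → ℕ) (b : Fin n → ℤ) : ℝ := ∏ i, (a i : ℝ) ^ b i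

/-- `H(a, b) = |b_1 ... b_n a_1 ... a_n|`. -/
def H {n : ℕ} (a : Fin n → ℕ) (b : Fin n → ℤ) : ℕ := ∏ i, (b i).natAbs * a i

/-- `max |b_j|`. -/
def maxExp {n : ℕ} (b : Fin n → ℤ) : ℕ := univ.sup fun i => (b i).natAbs

/-- For ALL `n` with `1 ≤ n ≤ M`, all factorisations `m = a_1 ⋯ a_n` and all nonzero integers `b_j` of
absolute value at most `m ^ (τ / n)` the inequality `|P(a, b) - 1| ≥ (1/2) max |b_j| / H(a, b)` holds. -/
def Good (M : ℕ) (τ : ℝ) (m : ℕ) : Prop :=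
  ∀ n : ℕ, 1 ≤ n → n ≤ M → ∀ (a : Fin n → ℕ) (b : Fin n → ℤ), ∏ i, a i = m → (∀ i, b i ≠ 0) →
    (∀ i, |(b i : ℝ)| ≤ (m : ℝ) ^ (τ / n)) → 1 / 2 * (maxExp b : ℝ) / (H a b : ℝ) ≤ |P a b - 1|

open Classical in
/-- The number of the `k` with `1 ≤ k ≤ K` for which not all natural numbers `m` at a distance of at most
`w` from `k y` have the property `G`. -/
noncomputable def exceptions (K : ℝ) (y w : ℝ) (G : ℕ → Prop) : ℕ :=
  ((Icc 1 ⌊K⌋₊).filter (fun k : ℕ => ∃ m : ℕ, |(m : ℝ) - k * y| ≤ w ∧ ¬ G m)).card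

open Classical in
lemma bad_count (M : ℕ) (τ : ℝ) (hτ : 0 ≤ τ) (ε : ℝ) (hε : 0 < ε) : ∃ C : ℝ, ∀ X : ℕ,
    (((Ioc 0 X).filter (fun m => m ∈ {m : ℕ | ¬ Good M τ m})).card : ℝ) ≤
      C * (X : ℝ) ^ (1 / 2 + τ + ε) := by
  have h1 : ∀ n : ℕ, ∃ K : ℝ, 0 ≤ K ∧ (1 ≤ n → ∀ X : ℝ, 1 ≤ X →
      {a | a ∈ WindowsWithoutExceptions.Exc n (τ / n) ∧ ((∏ j, a j : ℕ) : ℝ) ≤ X}.Finite ∧
      ({a | a ∈ WindowsWithoutExceptions.Exc n (τ / n) ∧
        ((∏ j, a j : ℕ) : ℝ) ≤ X}.ncard : ℝ) ≤ K * X ^ (1 / 2 + τ + ε)) := by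
    intro n
    rcases Nat.eq_zero_or_pos n with hn | hn
    · exact ⟨0, le_rfl, fun h => by omega⟩
    · obtain ⟨K, hK⟩ := WindowsWithoutExceptions.count n hn (τ / n) (by positivity) ε hε
      have hn0 : (n : ℝ) ≠ 0 := by positivity
      refine ⟨|K|, abs_nonneg _, fun _ X hX => ?_⟩
      obtain ⟨h3, h4⟩ := hK X hX
      refine ⟨h3, h4.trans ?_⟩
      rw [mul_div_cancel₀ _ hn0]
      exact mul_le_mul_of_nonneg_right (le_abs_self K) (by positivity)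
  choose K hK0 hK using h1
  refine ⟨∑ n ∈ Icc 1 M, K n, fun X => ?_⟩
  rcases Nat.eq_zero_or_pos X with rfl | hX
  · simp only [Ioc_self, filter_empty, card_empty, Nat.cast_zero]
    exact mul_nonneg (sum_nonneg fun n _ => hK0 n) (by positivity)
  have hX1 : (1 : ℝ) ≤ X := by exact_mod_cast hX
  let S : ℕ → Finset ℕ := fun n => if h : 1 ≤ n then
    ((hK n h X hX1).1.toFinset).image (fun a => ∏ j, a j) else ∅
  have hsub : (Ioc 0 X).filter (fun m => m ∈ {m : ℕ | ¬ Good M τ m}) ⊆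
      (Icc 1 M).biUnion S := by
    intro m hm
    rw [mem_filter, mem_Ioc] at hm
    obtain ⟨⟨hm0, hmX⟩, hmB⟩ := hm
    have hmB' : ¬ Good M τ m := hmB
    unfold Good at hmB'
    push Not at hmB'
    obtain ⟨n, hn1, hnM, a, b, ha, hb0, hb1, hlt⟩ := hmB'
    rw [mem_biUnion]
    refine ⟨n, mem_Icc.2 ⟨hn1, hnM⟩, ?_⟩
    simp only [S, dif_pos hn1]
    rw [mem_image]
    refine ⟨a, ?_, ha⟩
    rw [Set.Finite.mem_toFinset]
    refine ⟨⟨?_, b, hb0, ?_, hlt⟩, ?_⟩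
    · intro i
      by_contra h
      have h0 : a i = 0 := by omega
      rw [prod_eq_zero (mem_univ i) h0] at ha
      omega
    · intro i
      rw [ha]
      exact hb1 i
    · rw [ha]
      exact_mod_cast hmX
  calc (((Ioc 0 X).filter (fun m => m ∈ {m : ℕ | ¬ Good M τ m})).card : ℝ)
      ≤ (((Icc 1 M).biUnion S).card : ℝ) := by exact_mod_cast card_le_card hsub
    _ ≤ ((∑ n ∈ Icc 1 M, (S n).card : ℕ) : ℝ) := by exact_mod_cast card_biUnion_le
    _ = ∑ n ∈ Icc 1 M, ((S n).card : ℝ) := by push_cast; rfl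
    _ ≤ ∑ n ∈ Icc 1 M, K n * (X : ℝ) ^ (1 / 2 + τ + ε) := by
        refine sum_le_sum fun n hn => ?_
        have hn1 := (mem_Icc.1 hn).1
        simp only [S, dif_pos hn1]
        refine le_trans ?_ (hK n hn1 X hX1).2
        have h9 := Set.ncard_eq_toFinset_card _ (hK n hn1 X hX1).1
        have h10 : (((hK n hn1 X hX1).1.toFinset).image (fun a => ∏ j, a j)).card ≤
            ((hK n hn1 X hX1).1.toFinset).card := card_image_le
        rw [← h9] at h10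
        exact_mod_cast h10
    _ = _ := by rw [sum_mul]

/-- Let `M ≥ 1`, `0 ≤ τ < 1/2` and `0 < θ < 1`. There is `c > 0` such that for all large `N` there is a
set `E` of real numbers of measure at most `N ^ (1 - θ - c)` with the following property. Let `y` be a real
number with `N ^ (1 - θ) ≤ y ≤ 2 N ^ (1 - θ)` which does not belong to `E`. For all `k ≤ N ^ θ`, with at most
`N ^ (θ - c)` exceptions, EVERY natural number `m` with `|m - k y| ≤ N ^ c` has the property `Good M τ m`. -/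
theorem result (M : ℕ) (τ : ℝ) (hτ : 0 ≤ τ) (hτ1 : τ < 1 / 2) (θ : ℝ) (hθ : 0 < θ)
    (hθ1 : θ < 1) : ∃ c : ℝ, 0 < c ∧ ∃ N₀ : ℕ, ∀ N : ℕ, N₀ ≤ N →
      ∃ E : Set ℝ, MeasurableSet E ∧ volume E ≤ ENNReal.ofReal ((N : ℝ) ^ (1 - θ - c)) ∧
        ∀ y : ℝ, (N : ℝ) ^ (1 - θ) ≤ y → y ≤ 2 * (N : ℝ) ^ (1 - θ) → y ∉ E →
          (exceptions ((N : ℝ) ^ θ) y ((N : ℝ) ^ c) (Good M τ) : ℝ) ≤ (N : ℝ) ^ (θ - c) := by
  classical
  have hε : 0 < (1 / 2 - τ) / 2 := by linarith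
  obtain ⟨C, hC⟩ := bad_count M τ hτ _ hε
  obtain ⟨c, hc, h⟩ := Pool.Agent.Q319.DR.mult_fewP θ hθ hθ1 ((1 / 2 - τ) / 2) hε
  refine ⟨c, hc, h C {m : ℕ | ¬ Good M τ m} fun X => ?_⟩
  have he : (1 : ℝ) / 2 + τ + (1 / 2 - τ) / 2 = 1 - (1 / 2 - τ) / 2 := by ring
  rw [← he]
  convert hC X

end Pool.Agent.Results.MP_e07dae_nt.ProductsAtRealMultiples
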