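import Mathlib
import Pool.Agent.Q21.DW.Cnt
import Pool.Agent.Results.MP_e07dae_nt.WindowsWithoutExceptions

/-!
# The Lang-Waldschmidt inequality for all factorisations of random integers

Let `1/2 ≤ s < 1` and let `N` be an integer given by the digits or the multiples of a random real
number `α` (in the sense of `RandomReals s`).  Then for ALL `n`, all factorisations
`N = a_1 ⋯ a_n` and all nonzero integers `b_1, …, b_n` with `|b_j| ≤ N ^ ((s - 1/2) / n)` the
Lang-Waldschmidt inequality `|a_1 ^ b_1 ⋯ a_n ^ b_n - 1| ≥ (1/2) max |b_j| / |b_1 ⋯ b_n a_1 ⋯ a_n|`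
holds, without loss in the exponent.
-/

set_option autoImplicit false

namespace Pool.Agent.Results.MP_e07dae_nt.RandomProducts

open Finset

/-- `P(a, b) = a_1 ^ b_1 ... a_n ^ b_n`. -/
noncomputable def P {n : ℕ} (a : Fin n → ℕ) (b : Fin n → ℤ) : ℝ := ∏ i, (a i : ℝ) ^ b i

/-- `H(a, b) = |b_1 ... b_n a_1 ... a_n|`. -/
def H {n : ℕ} (a : Fin n → ℕ) (b : Fin n → ℤ) : ℕ := ∏ i, (b i).natAbs * a i

/-- `max |b_j|`. -/
def maxExp {n : ℕ} (b : Fin n → ℤ) : ℕ := univ.sup fun i => (b i).natAbs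

/-- For ALL factorisations `N = a_1 ⋯ a_n` into `n` factors and all nonzero integers `b_j` of
absolute value at most `N ^ σ` the inequality `|P(a, b) - 1| ≥ (1/2) max |b_j| / H(a, b)` holds. -/
def Good (σ : ℝ) (n N : ℕ) : Prop :=
  ∀ (a : Fin n → ℕ) (b : Fin n → ℤ), ∏ i, a i = N → (∀ i, b i ≠ 0) →
    (∀ i, |(b i : ℝ)| ≤ (N : ℝ) ^ σ) → 1 / 2 * (maxExp b : ℝ) / (H a b : ℝ) ≤ |P a b - 1|

/-- **Theorem.** Let `1/2 ≤ s < 1`. In the sense of `RandomReals s` (windows of digits in all bases, and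
integers near the multiples `α v_k`, for random real numbers `α`, with Hausdorff dimensions and measures
of the exceptional sets): the inequality holds for all factorisations of `N` into `n + 1` factors and
all exponents of absolute value at most `N ^ ((s - 1/2) / (n + 1))`, for all `n` at once. -/
theorem result (s : ℝ) (hs : 1 / 2 ≤ s) (hs1 : s < 1) :
    Pool.Agent.Q21.DW.RandomReals s (fun n : ℕ => Good ((s - 1 / 2) / (n + 1)) (n + 1)) := by
  refine Pool.Agent.Q21.DW.randomReals_of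
    (B := fun (n : ℕ) (N : ℕ) => ¬ Good ((s - 1 / 2) / (n + 1)) (n + 1) N) (by linarith) hs1 (fun n => ?_)
    (fun n N _ h => not_not.1 h)
  have hn0 : (0 : ℝ) < (n : ℝ) + 1 := by positivity
  refine Pool.Agent.Q21.DW.ps_of
    (fun X : ℕ => {a : Fin (n + 1) → ℕ |
      a ∈ WindowsWithoutExceptions.Exc (n + 1) ((s - 1 / 2) / (n + 1)) ∧
        ((∏ j, a j : ℕ) : ℝ) ≤ (X : ℝ)}) (fun a => ∏ j, a j) _ _ ?_ ?_
  · intro ε hε
    obtain ⟨K, hK⟩ := WindowsWithoutExceptions.count (n + 1) (by omega)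
      ((s - 1 / 2) / (n + 1)) (div_nonneg (by linarith) hn0.le) ε hε
    refine ⟨K, fun X hX => ?_⟩
    have h := hK X (by exact_mod_cast hX)
    have he : (1 : ℝ) / 2 + ((n + 1 : ℕ) : ℝ) * ((s - 1 / 2) / (n + 1)) + ε = s + ε := by
      push_cast
      field_simp
      ring
    rw [he] at h
    exact h
  · intro m N hm hmN hB
    unfold Good at hB
    push Not at hB
    obtain ⟨a, b, ha, hb0, hb1, hlt⟩ := hB
    refine ⟨a, ⟨⟨?_, b, hb0, ?_, hlt⟩, ?_⟩, ha⟩
    · intro i
      by_contra h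
      have h0 : a i = 0 := by omega
      rw [prod_eq_zero (mem_univ i) h0] at ha
      omega
    · intro i
      rw [ha]
      exact hb1 i
    · rw [ha]
      exact_mod_cast hmN

end Pool.Agent.Results.MP_e07dae_nt.RandomProducts
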